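import Pool.Agent.CBG.StmtsB

/-!
# Row WPR of CBG: the invariant distribution (helper75)
-/

set_option autoImplicit false
set_option maxSynthPendingDepth 3

open scoped Manifold ContDiff Topology
open Set Filter MeasureTheory

namespace Pool.Agent.CBG.H75

open Pool.Agent.CBG

section Gen

variable {V : Type} [NormedAddCommGroup V] [NormedSpace ℝ V]

/-- the derivative along a line -/
theorem line_deriv {W : Type} [NormedAddCommGroup W] [NormedSpace ℝ W] {F : V → W}
    {y : V} (hF : DifferentiableAt ℝ F y) (z : V) :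
    HasDerivAt (fun s : ℝ => F (y + s • z)) (fderiv ℝ F y z) 0 := by
  have h1 : HasDerivAt (fun s : ℝ => y + s • z) z 0 := by
    have h := ((hasDerivAt_id (0 : ℝ)).smul_const z).const_add y
    rw [one_smul] at h
    exact h
  have h2 : HasFDerivAt F (fderiv ℝ F y) (y + (0 : ℝ) • z) := by
    rw [zero_smul, add_zero]
    exact hF.hasFDerivAt
  exact h2.comp_hasDerivAt (0 : ℝ) h1

theorem eval_deriv {W : Type} [NormedAddCommGroup W] [NormedSpace ℝ W] {k : ℝ → V →L[ℝ] W}
    {k' : V →L[ℝ] W} (h : HasDerivAt k k' 0) (v : V) :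
    HasDerivAt (fun s => k s v) (k' v) 0 := by
  have h1 := h.clm_apply (hasDerivAt_const (0 : ℝ) v)
  rw [map_zero, add_zero] at h1
  exact h1

/-- differentiate `k s z = k s (ω s)` -/
theorem key_deriv {k : ℝ → V →L[ℝ] ℝ} {k' : V →L[ℝ] ℝ} (hk : HasDerivAt k k' 0)
    {om : ℝ → V} {om' : V} (hw : HasDerivAt om om' 0) (h0 : om 0 = 0) {z : V}
    (h : ∀ᶠ s in 𝓝 (0 : ℝ), k s z = k s (om s)) : k' z = k 0 om' := by
  have h1 := hk.clm_apply hw
  have h2 := eval_deriv hk z
  have h3 : HasDerivAt (fun s => k s (om s)) (k' z) 0 := h2.congr_of_eventuallyEq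
    (h.mono fun s hs => hs.symm)
  have h4 := h3.unique h1
  rw [h0, map_zero, zero_add] at h4
  exact h4

end Gen

theorem wpr : WprStmt := by
  intro n G X L hG hsym hpos hX hinv z hz
  have hG1 : ∀ᶠ y in 𝓝 (0 : Ed n), DifferentiableAt ℝ G y := by
    have h1 : ContDiffAt ℝ 1 G 0 := hG.of_le (by norm_num)
    have h2 := h1.eventually (by simp)
    exact h2.mono fun y hy => hy.differentiableAt (by simp)
  have hG0 : DifferentiableAt ℝ G 0 := hG1.self_of_nhds
  have hGG : DifferentiableAt ℝ (fderiv ℝ G) 0 := by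
    have h1 : ContDiffAt ℝ 1 (fderiv ℝ G) 0 := hG.fderiv_right (by norm_num)
    exact h1.differentiableAt (by simp)
  constructor
  · intro a ha b hb
    have h1 := eval_deriv (eval_deriv (line_deriv hG0 (X a)) (X b)) z
    have h2 : ∀ s : ℝ, G (0 + s • X a) (X b) z = 0 := by
      intro s
      have h3 := hinv.self_of_nhds (s • a) (L.smul_mem s ha) z hz b hb
      rw [map_smul] at h3
      exact h3
    have h4 : HasDerivAt (fun s : ℝ => G (0 + s • X a) (X b) z) 0 0 := by
      have e : (fun s : ℝ => G (0 + s • X a) (X b) z) = fun _ => (0 : ℝ) := funext h2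
      rw [e]
      exact hasDerivAt_const _ _
    exact h1.unique h4
  · haveI : CompleteSpace L := FiniteDimensional.complete ℝ L
    set J : L →L[ℝ] Ed n := X.comp L.subtypeL with hJ
    have hJa : ∀ b : L, J b = X b := fun b => rfl
    set C1 : (Ed n →L[ℝ] ℝ) →L[ℝ] (L →L[ℝ] ℝ) :=
      (ContinuousLinearMap.compL ℝ L (Ed n) ℝ).flip J with hC1
    set C2 : (Ed n →L[ℝ] ℝ) →L[ℝ] ℝ := ContinuousLinearMap.apply ℝ ℝ z with hC2
    set P : Ed n → L →L[ℝ] (L →L[ℝ] ℝ) := fun y => C1.comp ((G y).comp J) with hP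
    set u : Ed n → L →L[ℝ] ℝ := fun y => C2.comp ((G y).comp J) with hu
    have hPa : ∀ y (b b' : L), P y b b' = G y (X b) (X b') := fun y b b' => rfl
    have hua : ∀ y (b : L), u y b = G y (X b) z := fun y b => rfl
    have hPc : ContDiffAt ℝ 2 P 0 := contDiffAt_const.clm_comp (hG.clm_comp contDiffAt_const)
    have huc : ContDiffAt ℝ 2 u 0 := contDiffAt_const.clm_comp (hG.clm_comp contDiffAt_const)
    have hinj : Function.Injective (P 0) := by
      rw [injective_iff_map_eq_zero]
      intro b hb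
      by_contra h
      have h1 : X b ≠ 0 := by
        intro h2
        apply h
        have h3 : X (b : ℝ × ℝ) = X 0 := by rw [h2, map_zero]
        exact Subtype.ext (hX h3)
      have h2 := hpos _ h1
      rw [← hPa 0 b b, hb] at h2
      exact lt_irrefl _ h2
    have hfin : Module.finrank ℝ L = Module.finrank ℝ (L →L[ℝ] ℝ) := by
      rw [← (LinearMap.toContinuousLinearMap : (L →ₗ[ℝ] ℝ) ≃ₗ[ℝ] (L →L[ℝ] ℝ)).finrank_eq]
      exact (Subspace.dual_finrank_eq (K := ℝ) (V := L)).symm
    obtain ⟨e, he⟩ : ∃ e : L ≃L[ℝ] (L →L[ℝ] ℝ), (e : L →L[ℝ] (L →L[ℝ] ℝ)) = P 0 := by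
      refine ⟨(LinearEquiv.ofInjectiveOfFinrankEq (P 0).toLinearMap hinj
        hfin).toContinuousLinearEquiv, ?_⟩
      ext b b'
      rfl
    set w : Ed n → L := fun y => (P y).inverse (u y) with hw
    have hwc : ContDiffAt ℝ 2 w 0 := by
      have h1 : ContDiffAt ℝ 2 ContinuousLinearMap.inverse (P 0) := by
        rw [← he]
        exact contDiffAt_map_inverse e
      exact (h1.comp (0 : Ed n) hPc).clm_apply huc
    have hwd : DifferentiableAt ℝ w 0 := hwc.differentiableAt (by simp)
    have hu0 : u 0 = 0 := by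
      ext b
      exact hz b b.2
    have hw0 : w 0 = 0 := by
      show (P 0).inverse (u 0) = 0
      rw [hu0, map_zero]
    have hPw : ∀ᶠ y in 𝓝 (0 : Ed n), P y (w y) = u y := by
      have h1 : ∀ᶠ y in 𝓝 (0 : Ed n),
          P y ∈ Set.range ((↑) : (L ≃L[ℝ] (L →L[ℝ] ℝ)) → (L →L[ℝ] (L →L[ℝ] ℝ))) := by
        apply hPc.continuousAt
        rw [← he]
        exact e.nhds
      filter_upwards [h1] with y hy
      obtain ⟨e', he'⟩ := hy
      show P y ((P y).inverse (u y)) = u y
      rw [← he', ContinuousLinearMap.inverse_equiv]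
      exact e'.apply_symm_apply _
    have hi : ∀ᶠ y in 𝓝 (0 : Ed n), ∀ b ∈ L, G y (X b) z = G y (X b) (X (w y)) := by
      filter_upwards [hPw, hsym] with y hy hs b hb
      have h1 : P y (w y) ⟨b, hb⟩ = u y ⟨b, hb⟩ := by rw [hy]
      have h2 : G y (X (w y)) (X b) = G y (X b) z := h1
      rw [← h2, hs]
    have hii : ∀ᶠ y in 𝓝 (0 : Ed n), ∀ a ∈ L,
        fderiv ℝ G y (X a) (X a) z = fderiv ℝ G y (X a) (X a) (X (w y)) := by
      filter_upwards [hi, hinv, hG1] with y hy hv hd a ha
      have h1 := eval_deriv (eval_deriv (line_deriv hd (X a)) (X a)) (z - X (w y))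
      have h2 : ∀ s : ℝ, G (y + s • X a) (X a) (z - X (w y)) = 0 := by
        intro s
        have h3 := hv (s • a) (L.smul_mem s ha) (z - X (w y)) (fun b hb => by
          rw [map_sub, hy b hb, sub_self]) a ha
        rw [map_smul] at h3
        exact h3
      have h4 : HasDerivAt (fun s : ℝ => G (y + s • X a) (X a) (z - X (w y))) 0 0 := by
        have e : (fun s : ℝ => G (y + s • X a) (X a) (z - X (w y))) = fun _ => (0 : ℝ) :=
          funext h2
        rw [e]
        exact hasDerivAt_const _ _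
      have h5 := h1.unique h4
      rw [map_sub, sub_eq_zero] at h5
      exact h5
    have htend : Tendsto (fun s : ℝ => (0 : Ed n) + s • z) (𝓝 0) (𝓝 0) := by
      have hc : Continuous (fun s : ℝ => (0 : Ed n) + s • z) := by fun_prop
      have := hc.tendsto 0
      rwa [zero_smul, add_zero] at this
    have hom : HasDerivAt (fun s : ℝ => X (w (0 + s • z))) (X (fderiv ℝ w 0 z)) 0 := by
      have h1 := line_deriv hwd z
      exact (J.hasFDerivAt).comp_hasDerivAt (0 : ℝ) h1
    have hom0 : X (w (0 + (0 : ℝ) • z)) = 0 := by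
      rw [zero_smul, add_zero, hw0]
      exact map_zero X
    refine ⟨fderiv ℝ w 0 z, (fderiv ℝ w 0 z).2, fun b hb => ?_, fun a ha => ?_⟩
    · have h1 := key_deriv (eval_deriv (line_deriv hG0 z) (X b)) hom hom0 (z := z)
        ((htend.eventually hi).mono fun s hs => hs b hb)
      rw [zero_smul, add_zero] at h1
      exact h1
    · have h1 := key_deriv (eval_deriv (eval_deriv (line_deriv hGG z) (X a)) (X a)) hom hom0
        (z := z) ((htend.eventually hii).mono fun s hs => hs a ha)
      rw [zero_smul, add_zero] at h1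
      exact h1

end Pool.Agent.CBG.H75
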